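import Pool.Agent.Helper61.EP.StL
import Pool.Agent.Helper79.LM.M_PL

/-!
# Project EP (MP_cb927e_an), module LPL: the main `L²` estimate
-/

set_option autoImplicit false

open MeasureTheory Set Filter Topology
open scoped ENNReal RealInnerProductSpace

namespace Pool.Agent.Helper93.EPL

open Pool.Agent.Helper61.EPL Pool.Agent.Helper20.RG Pool.Agent.Helper68.EP
open Pool.Agent.Helper20.RL (RQ Rich BM Fml Hit)
open Pool.Agent.Helper61.EP (trS Ex2 Yc Zc Ec am cutf)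
open Pool.Agent.Helper68.LM (Pl BB Bd Av HL ft fm DQ)

lemma am_nonneg (c : Pl) (φ τ : ℝ → ℝ) (u : ℕ) (ξ : Pl) : 0 ≤ am c φ τ u ξ :=
  Finset.sum_nonneg fun _ _ => norm_nonneg _

theorem hLPL (hLMI : Pool.Agent.Helper61.EPL.StLMI) (hLPR : Pool.Agent.Helper61.EPL.StLPR)
    (hLSQ : Pool.Agent.Helper61.EPL.StLSQ) (hLZF : Pool.Agent.Helper61.EPL.StLZF) :
    Pool.Agent.Helper61.EPL.StLPL := by
  obtain ⟨z1, z2, z3, z4, z5⟩ := hLZF
  intro A p hA hp1 hp2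
  obtain ⟨C1, hC1, M⟩ := hLMI A p hA hp1
  obtain ⟨C2, hC2, R⟩ := hLPR p hp1 hp2
  obtain ⟨C3, hC3, S⟩ := hLSQ p hp1 hp2
  have hPL := Pool.Agent.Helper79.LM.hPL
  refine ⟨C2 * C1 * C1 * C3, ?_, ?_⟩
  · have h1 : 1 ≤ C2 * C1 := one_le_mul_of_one_le_of_one_le hC2 hC1
    have h2 : 1 ≤ C2 * C1 * C1 := one_le_mul_of_one_le_of_one_le h1 hC1
    exact one_le_mul_of_one_le_of_one_le h2 hC3
  intro φ τ c hG hGp U₀ U f hU₀ hf hf0
  obtain ⟨M1, M2⟩ := M φ τ c hG hGp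
  obtain ⟨S1, -, -, -⟩ := S f hf.1 hf0
  -- abbreviations
  let w : ℤ → ℝ≥0∞ := fun l => ENNReal.ofReal ((2 : ℝ) ^ ((p - 2) * (l : ℝ)))
  let g : ℤ → Pl → ℝ := fun h => (Gf f h).indicator f
  let G : ℤ → Pl → ℝ≥0∞ := fun h ξ => ‖ft (g h) ξ‖ₑ
  let a : ℤ → Pl → ℕ → ℝ := fun k ξ u => if 2 ≤ u then am c φ τ u ((2 : ℝ) ^ k • ξ) else 0
  let X : ℤ → ℤ → Pl → ℝ≥0∞ := fun l k ξ => (∑ u ∈ Finset.Icc 2 U,
      ENNReal.ofReal ((2 : ℝ) ^ (-(u : ℝ)) * a k ξ u) * ∑ v ∈ Finset.range u, G (l + (v : ℤ)) ξ) ^ 2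
  have hgB : ∀ h : ℤ, BB (g h) := fun h => (z5 f hf h).1
  have hcB : ∀ (l : ℤ) (u : ℕ), BB (cutf f l u) := fun l u => (z5 f hf l).2 u
  have hGm : ∀ h : ℤ, Measurable (G h) := fun h => ((hPL (g h) (hgB h)).1).enorm
  have ham : ∀ (k : ℤ) (u : ℕ), Measurable (fun ξ => a k ξ u) := by
    intro k u
    by_cases hu : 2 ≤ u
    · have e : (fun ξ => a k ξ u) = fun ξ : Pl => am c φ τ u ((2 : ℝ) ^ k • ξ) := by
        funext ξ
        exact if_pos hu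
      rw [e]
      exact ((z3 φ τ c u).measurable).comp (measurable_const_smul _)
    · have e : (fun ξ => a k ξ u) = fun _ : Pl => (0 : ℝ) := by
        funext ξ
        exact if_neg hu
      rw [e]
      exact measurable_const
  have hXm : ∀ l k : ℤ, Measurable (X l k) := by
    intro l k
    refine Measurable.pow_const (Finset.measurable_sum _ fun u _ => ?_) 2
    exact ((ham k u).const_mul _).ennreal_ofReal.mul
      (Finset.measurable_sum _ fun v _ => hGm _)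
  -- Fourier transform of the cut functions
  have hft : ∀ (l : ℤ) (u : ℕ) (ξ : Pl),
      ‖ft (cutf f l u) ξ‖ₑ ≤ ∑ v ∈ Finset.range u, G (l + (v : ℤ)) ξ := by
    intro l u ξ
    have e : cutf f l u = fun x => ∑ v ∈ Finset.range u, g (l + (v : ℤ)) x := by
      funext x
      exact z4 f l u x
    rw [e, (z2 (Finset.range u) (fun v => g (l + (v : ℤ))) (fun v _ => hgB _)).2 ξ]
    exact enorm_sum_le _ _
  -- step A
  have stepA : ∀ l k : ℤ,
      ∫⁻ x, ‖∑ u ∈ Finset.Ioc U₀ U, Zc c φ τ u k (cutf f l u) x‖ₑ ^ 2 ≤ ∫⁻ ξ, X l k ξ := by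
    intro l k
    have hB := z2 (Finset.Ioc U₀ U) (fun u => Zc c φ τ u k (cutf f l u))
      (fun u _ => (z1 φ τ c hG u k _ (hcB l u)).1)
    rw [← (hPL _ hB.1).2]
    refine lintegral_mono fun ξ => ?_
    show ‖_‖ₑ ^ 2 ≤ (_ : ℝ≥0∞) ^ 2
    refine pow_le_pow_left' ?_ 2
    rw [hB.2 ξ]
    refine (enorm_sum_le _ _).trans ?_
    have hsub : Finset.Ioc U₀ U ⊆ Finset.Icc 2 U := by
      intro u hu
      rw [Finset.mem_Ioc] at hu
      rw [Finset.mem_Icc]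
      omega
    refine (Finset.sum_le_sum fun u hu => ?_).trans
      (Finset.sum_le_sum_of_subset hsub)
    have hu2 : 2 ≤ u := (Finset.mem_Icc.1 (hsub hu)).1
    refine ((z1 φ τ c hG u k _ (hcB l u)).2 ξ).trans ?_
    have ea : a k ξ u = am c φ τ u ((2 : ℝ) ^ k • ξ) := if_pos hu2
    rw [ea]
    exact mul_le_mul' le_rfl (hft l u ξ)
  -- step C
  have stepC : ∀ ξ : Pl, ξ ≠ 0 → ∑' k : ℤ, ∑' l : ℤ, w l * X l k ξ ≤
      ENNReal.ofReal (C2 * C1) * ENNReal.ofReal C1 * ∑' h : ℤ, w h * G h ξ ^ 2 := by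
    intro ξ hξ
    have h2 : ∀ k : ℤ, (2 : ℝ) ^ k • ξ ≠ 0 := fun k =>
      smul_ne_zero (zpow_ne_zero _ two_ne_zero) hξ
    have ha : ∀ (k : ℤ) (u : ℕ), 0 ≤ a k ξ u ∧ a k ξ u ≤ C1 := by
      intro k u
      by_cases hu : 2 ≤ u
      · have ea : a k ξ u = am c φ τ u ((2 : ℝ) ^ k • ξ) := if_pos hu
        rw [ea]
        exact ⟨am_nonneg _ _ _ _ _, M1 u _ hu (h2 k)⟩
      · have ea : a k ξ u = 0 := if_neg hu
        rw [ea]
        exact ⟨le_rfl, by linarith⟩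
    have hk : ∀ k : ℤ, ∑' l : ℤ, w l * X l k ξ ≤ ENNReal.ofReal (C2 * C1) *
        (∑ u ∈ Finset.Icc 2 U, ENNReal.ofReal ((2 : ℝ) ^ (-(p * u)) *
          am c φ τ u ((2 : ℝ) ^ k • ξ))) * ∑' h : ℤ, w h * G h ξ ^ 2 := by
      intro k
      have h := R C1 U (a k ξ) (fun h => G h ξ) (by linarith) (ha k)
      refine h.trans_eq ?_
      congr 2
      refine Finset.sum_congr rfl fun u hu => ?_
      have ea : a k ξ u = am c φ τ u ((2 : ℝ) ^ k • ξ) := if_pos (Finset.mem_Icc.1 hu).1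
      rw [ea]
    refine (ENNReal.tsum_le_tsum hk).trans ?_
    rw [ENNReal.tsum_mul_right, ENNReal.tsum_mul_left]
    exact mul_le_mul' (mul_le_mul' le_rfl (M2 U ξ hξ)) le_rfl
  -- assembly
  have hXm' : ∀ l k : ℤ, Measurable (fun ξ => w l * X l k ξ) := fun l k => (hXm l k).const_mul _
  calc ∑' l : ℤ, ENNReal.ofReal ((2 : ℝ) ^ ((p - 2) * l)) * ∑' k : ℤ,
        ∫⁻ x, ‖∑ u ∈ Finset.Ioc U₀ U, Zc c φ τ u k (cutf f l u) x‖ₑ ^ 2
      ≤ ∑' l : ℤ, w l * ∑' k : ℤ, ∫⁻ ξ, X l k ξ :=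
        ENNReal.tsum_le_tsum fun l => mul_le_mul' le_rfl
          (ENNReal.tsum_le_tsum fun k => stepA l k)
    _ = ∑' l : ℤ, ∑' k : ℤ, ∫⁻ ξ, w l * X l k ξ := by
        refine tsum_congr fun l => ?_
        rw [← ENNReal.tsum_mul_left]
        refine tsum_congr fun k => ?_
        rw [lintegral_const_mul _ (hXm l k)]
    _ = ∑' k : ℤ, ∑' l : ℤ, ∫⁻ ξ, w l * X l k ξ := ENNReal.tsum_comm
    _ = ∑' k : ℤ, ∫⁻ ξ, ∑' l : ℤ, w l * X l k ξ := by
        refine tsum_congr fun k => ?_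
        rw [lintegral_tsum fun l => (hXm' l k).aemeasurable]
    _ = ∫⁻ ξ, ∑' k : ℤ, ∑' l : ℤ, w l * X l k ξ := by
        rw [lintegral_tsum fun k => (Measurable.ennreal_tsum fun l => hXm' l k).aemeasurable]
    _ ≤ ∫⁻ ξ, ENNReal.ofReal (C2 * C1) * ENNReal.ofReal C1 * ∑' h : ℤ, w h * G h ξ ^ 2 := by
        refine lintegral_mono_ae ?_
        have h0 : ∀ᵐ ξ : Pl, ξ ≠ 0 := by
          rw [ae_iff]
          simp
        filter_upwards [h0] with ξ hξ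
        exact stepC ξ hξ
    _ = ENNReal.ofReal (C2 * C1) * ENNReal.ofReal C1 *
          ∑' h : ℤ, w h * ∫⁻ x, ‖(Gf f h).indicator f x‖ₑ ^ 2 := by
        rw [lintegral_const_mul _
          (Measurable.ennreal_tsum fun h => ((hGm h).pow_const 2).const_mul _)]
        congr 1
        rw [lintegral_tsum fun h => (((hGm h).pow_const 2).const_mul _).aemeasurable]
        refine tsum_congr fun h => ?_
        rw [lintegral_const_mul _ ((hGm h).pow_const 2)]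
        congr 1
        exact (hPL (g h) (hgB h)).2
    _ ≤ ENNReal.ofReal (C2 * C1) * ENNReal.ofReal C1 *
          (ENNReal.ofReal C3 * ∫⁻ x, ENNReal.ofReal (f x) ^ p) := mul_le_mul' le_rfl S1
    _ = ENNReal.ofReal (C2 * C1 * C1 * C3) * ∫⁻ x, ENNReal.ofReal (f x) ^ p := by
        rw [ENNReal.ofReal_mul (by positivity : 0 ≤ C2 * C1 * C1),
          ENNReal.ofReal_mul (by positivity : 0 ≤ C2 * C1)]
        ring

end Pool.Agent.Helper93.EPL
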